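import Pool.Agent.U365.AQG.A
import Pool.Agent.Results.MP_bae66e_nt.AsymptoticEveryModulus
import Pool.Agent.Results.MP_bae66e_nt.EveryModulusSevenTenths

/-!
# The least prime in the Goldbach representations of aliquot sums, cototients and similar functions

Let `g(n)` be the least prime `p` such that `n - p` is a prime, and `s(m) = σ(m) - m` the sum of the proper divisors of `m`.
For almost all even integers `m` with a prime factor larger than `m^(3/10 + ρ)` the numbers `n = s(m)` and `n = m - φ(m)` are
even, `g(n) ≤ n / (log n)^W` for every given `W`, and every window of a length of at least `n / (log n)^W` contains at least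
a twentieth of the expected number of primes `p` with `n - p` prime; the expected number, if the prime factor is larger than
`m^(1/3 + ρ)`. So this holds for at least 70 per cent of all even `m`. The same is true for the even values of all functions
`α m + β f(m)`, where `f` is any positive multiplicative function of moderate growth with `f(p) = p + c`, `c ≠ 0`, for
all large primes `p`, as long as they are positive and not very small. These functions are not multiplicative, nothing is
known on the distribution of their values in the residue classes to large moduli, and their values are taken with large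
multiplicities.

Proof. As in `MP_967f73_nt.AliquotSums` (starting file): `m = k p` with the large prime factor `p`, so
`α m + β f(m) = A p + B` runs through a residue class modulo `A`, `A ≤ x^(7/10 - ρ)`, and the theorems of the starting files on
this problem in the residue classes of every modulus (`AsymptoticEveryModulus`, `EveryModulusSevenTenths`) are applied for
every `k`.
-/

set_option autoImplicit false

namespace Pool.Agent.Results.MP_bae66e_nt.AliquotSums

open Finset Filter Topology
open Pool.Agent.U365.AQG (Moderate LargePrime AlmostAll aliquot)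

/-- `g(n) ≤ n / (log n)^W`, and the asymptotic formula in windows. -/
abbrev Asym := Pool.Agent.Results.MP_bae66e_nt.AsymptoticEveryModulus.Holds

/-- `g(n) ≤ n / (log n)^W`, and the lower bound in windows. -/
abbrev Low := Pool.Agent.Results.MP_bae66e_nt.EveryModulusSevenTenths.Holds


theorem ebt_asym (ε : ℝ) (hε : 0 < ε) (W : ℕ) :
    Pool.Agent.N733.AQ.EBT (2 / 3) (fun n => 2 ∣ n → Asym ε W n) :=
  Pool.Agent.N733.AQ.ebt_of (2 / 3) (Asym ε W) (fun ρ hρ A T =>
    Pool.Agent.Results.MP_bae66e_nt.AsymptoticEveryModulus.result ε ρ hε hρ W A T)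

theorem ebt_low (W : ℕ) : Pool.Agent.N733.AQ.EBT (7 / 10) (fun n => 2 ∣ n → Low W n) :=
  Pool.Agent.N733.AQ.ebt_of (7 / 10) (Low W) (fun ρ hρ A T =>
    Pool.Agent.Results.MP_bae66e_nt.EveryModulusSevenTenths.result ρ hρ W A T)

theorem both (W : ℕ) (ρ : ℝ) (hρ : 0 < ρ) :
    AlmostAll (fun m => Even m → LargePrime (3 / 10 + ρ) m →
      (4 ≤ aliquot m ∧ Even (aliquot m) ∧ Low W (aliquot m)) ∧
        (4 ≤ m - Nat.totient m ∧ Even (m - Nat.totient m) ∧ Low W (m - Nat.totient m))) := by
  have h := Pool.Agent.U365.AQG.both (7 / 10) (by norm_num) le_rfl (Low W) (ebt_low W) 4 ρ hρ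
  rwa [show (1 - 7 / 10 : ℝ) = 3 / 10 by norm_num] at h

open Classical in
/-- **The least prime in the Goldbach representations of aliquot sums, cototients and similar functions.** Let `f` be a
positive multiplicative function of moderate growth with `f p = p + c`, `c ≠ 0`, for all large primes `p`, let `α`, `β` be
nonzero integers, `n = α m + β f(m)` and `ρ > 0`. For almost all `m` with a prime factor `≥ m^(1/3 + ρ)` and
`n ≥ m / (log m)^C` the integer `n`, if it is even, has a representation `n = p + q` with primes `p ≤ n / (log n)^W` and `q`,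
and the predicted number of representations in all windows of a length of at least `n / (log n)^W`; with a prime factor
`≥ m^(3/10 + ρ)` at least a twentieth of this number. Euler's function and the sum of the divisors are examples. For almost
all even `m` with a prime factor `≥ m^(3/10 + ρ)` this lower bound holds for the sum `s(m)` of the proper divisors and for the
cototient `m - φ(m)`, and both are even and at least `4`; this is so for a proportion of at least `7/10` of the even `m`. -/
theorem result :
    (∀ (f : ℕ → ℕ) (c α β : ℤ) (C W : ℕ) (ρ ε : ℝ), Moderate f c → c ≠ 0 → α ≠ 0 → β ≠ 0 → 0 < ρ → 0 < ε →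
      AlmostAll (fun m => LargePrime (1 / 3 + ρ) m → (m : ℝ) / Real.log m ^ C ≤ ((α * m + β * f m : ℤ) : ℝ) →
        Even (α * m + β * f m) → Asym ε W (α * m + β * f m).toNat)) ∧
    (∀ (f : ℕ → ℕ) (c α β : ℤ) (C W : ℕ) (ρ : ℝ), Moderate f c → c ≠ 0 → α ≠ 0 → β ≠ 0 → 0 < ρ →
      AlmostAll (fun m => LargePrime (3 / 10 + ρ) m → (m : ℝ) / Real.log m ^ C ≤ ((α * m + β * f m : ℤ) : ℝ) →
        Even (α * m + β * f m) → Low W (α * m + β * f m).toNat)) ∧
    (Moderate Nat.totient (-1) ∧ Moderate (fun m => ∑ d ∈ m.divisors, d) 1) ∧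
    (∀ (W : ℕ) (ρ : ℝ), 0 < ρ → AlmostAll (fun m => Even m → LargePrime (3 / 10 + ρ) m →
      (4 ≤ aliquot m ∧ Even (aliquot m) ∧ Low W (aliquot m)) ∧
        (4 ≤ m - Nat.totient m ∧ Even (m - Nat.totient m) ∧ Low W (m - Nat.totient m)))) ∧
    ∀ (W : ℕ) (δ : ℝ), δ < 7 / 10 → ∃ N₀ : ℕ, ∀ N : ℕ, N₀ ≤ N → δ * (N / 2) ≤
      (((Icc 1 N).filter (fun m => Even m ∧ (4 ≤ aliquot m ∧ Even (aliquot m) ∧ Low W (aliquot m)) ∧
        (4 ≤ m - Nat.totient m ∧ Even (m - Nat.totient m) ∧ Low W (m - Nat.totient m)))).card : ℝ) := by
  refine ⟨fun f c α β C W ρ ε hf hc hα hβ hρ hε => ?_, fun f c α β C W ρ hf hc hα hβ hρ => ?_,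
    ⟨Pool.Agent.U365.AQG.moderate_totient, Pool.Agent.U365.AQG.moderate_sigma⟩,
    fun W ρ hρ => both W ρ hρ, fun W δ hδ => ?_⟩
  · have h := Pool.Agent.U365.AQG.general (2 / 3) (by norm_num) (by norm_num) (Asym ε W) (ebt_asym ε hε W)
      f c α β C ρ hf hc hα hβ hρ
    rwa [show (1 - 2 / 3 : ℝ) = 1 / 3 by norm_num] at h
  · have h := Pool.Agent.U365.AQG.general (7 / 10) (by norm_num) (by norm_num) (Low W) (ebt_low W)
      f c α β C ρ hf hc hα hβ hρ
    rwa [show (1 - 7 / 10 : ℝ) = 3 / 10 by norm_num] at h
  · obtain ⟨N₀, h⟩ := Pool.Agent.U365.AQG.density (7 / 10) (by norm_num)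
      (fun m => (4 ≤ aliquot m ∧ Even (aliquot m) ∧ Low W (aliquot m)) ∧
        (4 ≤ m - Nat.totient m ∧ Even (m - Nat.totient m) ∧ Low W (m - Nat.totient m))) (fun η hη => by
        rw [show (1 - 7 / 10 : ℝ) = 3 / 10 by norm_num]
        exact both W η hη) δ hδ
    exact ⟨N₀, fun N hN => (h N hN).trans (Nat.cast_le.2 (Pool.Agent.U365.AQG.card_mono' (fun m hm => hm)))⟩

end Pool.Agent.Results.MP_bae66e_nt.AliquotSums
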