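import Mathlib
import Pool.Agent.U839.Er.Fin

set_option autoImplicit false

/-!
# The number of primes in intervals of length `c log² n`, in sieved random models

Cramér's conjecture `L = 1` says that an interval of length `c log² n` after a large `n` contains a prime if `c > 1`, but not
always if `c < 1`. In the random models of the primes with a sieve we determine how many chosen numbers there are in these
intervals. Let `T` be nondecreasing and smaller than every power of `n`. The integers `n` without prime factors `p ≤ T(n)` are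
chosen independently with probability `∏_{p ≤ T(n)} (1 - 1/p)⁻¹ / log n`, and `N_c(n)` is the number of the chosen
integers in `(n, n + c log² n]`. Let

`I_c(α) = c - α + α log(α/c)`,

the rate function of the Poisson law. If `T(n) ≤ (log n)^(o(1))` then, for every `c > 0`, almost surely

* the set of the limit points of `N_c(n)/log n` is the interval `{α ≥ 0 : I_c(α) ≤ 1}`, and `N_c(n)/log n` is bounded. So
  `N_c(n)` has the maximal order `α₊ log n` and the minimal order `α₋ log n`, where `α₋ < c < α₊` are the solutions of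
  `I_c(α) = 1` (`α₋ = 0` if `c ≤ 1`);
* for every `α` in this interval the number of the `n ≤ X` for which `N_c(n)/log n` is near `α` is `X^(1 - I_c(α) + o(1))`.

Conversely, if the limit points are as stated for every `c > 0`, then `T(n) ≤ (log n)^(o(1))`. The left end point of the
interval is positive exactly for `c > 1`; this is Cramér's conjecture for the model.

Proof. Upper bounds: Chernoff's inequality with the tilt `log(α/c)`, since by the fundamental lemma the expected value of
`N_c(n)` is `(c + o(1)) log n` for all `n`; the series of the probabilities times `n^(-(1 - I + ε))` converges. Lower bounds: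
the probability of exactly `j` elements is at least `e^(-(1 + o(1)) S)` times the elementary symmetric polynomial of degree
`j` in the probabilities, which is at least `(S - j M)^j / j!`, where `S` is their sum and `M → 0` their maximum; so it is
`n^(-I - o(1))` for `j = α log n`. For disjoint windows these events are independent. The converse follows from the
effect of Maier's theorem for `T(n) > (log n)^θ` (library `Pool.Agent.U839.Sv`).
-/

open MeasureTheory ProbabilityTheory Filter Topology

namespace Pool.Agent.Results.MP_b0c12c_nt.CountsInSievedModels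

open Classical in
/-- `∏_{p ≤ T(n)} (1 - 1/p)⁻¹` if `n` has no prime factor `p ≤ T(n)`, and `0` otherwise. -/
noncomputable def weight (T : ℕ → ℕ) (n : ℕ) : ℝ :=
  if ∀ p, p.Prime → p ≤ T n → ¬ p ∣ n then
    ∏ p ∈ (Finset.Icc 1 (T n)).filter Nat.Prime, (1 - 1 / (p : ℝ))⁻¹ else 0

/-- The random model: `E n` is the event that `n` is chosen; these events are independent and have
probability `weight T n / log n` (if this is at most `1`, which is the case for all large `n` here). -/
structure Model {Ω : Type*} [MeasurableSpace Ω] (μ : Measure Ω) (T : ℕ → ℕ) (E : ℕ → Set Ω) : Prop where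
  meas : ∀ n, MeasurableSet (E n)
  indep : iIndepSet E μ
  law : ∀ n : ℕ, μ.real (E n) = min 1 (weight T n / Real.log n)

/-- `T` is nondecreasing and eventually smaller than every positive power of `n`. -/
def Sieve (T : ℕ → ℕ) : Prop :=
  Monotone T ∧ ∀ ε : ℝ, 0 < ε → ∀ᶠ n : ℕ in atTop, (T n : ℝ) ≤ (n : ℝ) ^ ε

/-- The number of the elements of `Q` in `(n, n + c log² n]`. -/
noncomputable def N (Q : Set ℕ) (c : ℝ) (n : ℕ) : ℕ :=
  {m : ℕ | m ∈ Q ∧ n < m ∧ (m : ℝ) ≤ n + c * (Real.log n) ^ 2}.ncard

/-- The rate function of the Poisson law. -/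
noncomputable def rate (c α : ℝ) : ℝ := c - α + α * Real.log (α / c)

/-- The law of the numbers of elements of the windows `(n, n + c log² n]`. -/
structure CountLaw (Q : Set ℕ) (c : ℝ) : Prop where
  /-- The limit points of `N(n)/log n` are the `α ≥ 0` with rate at most `1`. -/
  limits : {α : ℝ | MapClusterPt α atTop (fun n : ℕ => (N Q c n : ℝ) / Real.log n)} = {α | 0 ≤ α ∧ rate c α ≤ 1}
  /-- `N(n)` is at most a multiple of `log n`. -/
  bounded : ∀ᶠ n : ℕ in atTop, (N Q c n : ℝ) ≤ (4 * c + 2) * Real.log n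
  /-- Many windows have about `α log n` elements. -/
  many : ∀ α : ℝ, 0 ≤ α → rate c α ≤ 1 → ∀ ε : ℝ, 0 < ε → ∀ᶠ X : ℕ in atTop,
    (X : ℝ) ^ (1 - rate c α - ε) ≤ ({n : ℕ | |(N Q c n : ℝ) / Real.log n - α| < ε ∧ X < n ∧ n ≤ 2 * X}.ncard : ℝ)
  /-- There are not more. -/
  few : ∀ α : ℝ, 0 ≤ α → rate c α ≤ 1 → ∀ ε : ℝ, 0 < ε → ∃ δ : ℝ, 0 < δ ∧ ∀ᶠ X : ℕ in atTop,
    ({n : ℕ | |(N Q c n : ℝ) / Real.log n - α| < δ ∧ n ≤ X}.ncard : ℝ) ≤ (X : ℝ) ^ (1 - rate c α + ε)

theorem N_eq (Q : Set ℕ) (c : ℝ) (hc : 0 < c) (n : ℕ) : N Q c n = Pool.Agent.U839.Er.cn Q c n := by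
  classical
  unfold N Pool.Agent.U839.Er.cn
  rw [← Set.ncard_coe_finset]
  congr 1
  ext m
  rw [Finset.mem_coe, Finset.mem_filter, Finset.mem_Ioc]
  have h0 : 0 ≤ c * (Real.log n) ^ 2 := by positivity
  constructor
  · rintro ⟨h1, h2, h3⟩
    refine ⟨⟨h2, ?_⟩, h1⟩
    have h4 : m - n ≤ Pool.Agent.U839.Sv.wn c n := by
      apply Nat.le_floor
      rw [Nat.cast_sub h2.le]
      linarith
    omega
  · rintro ⟨⟨h2, h3⟩, h1⟩
    refine ⟨h1, h2, ?_⟩
    have h4 : (m : ℝ) ≤ n + Pool.Agent.U839.Sv.wn c n := by exact_mod_cast h3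
    have h5 : (Pool.Agent.U839.Sv.wn c n : ℝ) ≤ c * (Real.log n) ^ 2 := Nat.floor_le h0
    linarith

/-- The law holds almost surely for every `c > 0` if and only if `T(n) ≤ (log n)^(o(1))`. -/
theorem result {Ω : Type*} [MeasurableSpace Ω] {μ : Measure Ω} [IsProbabilityMeasure μ] (T : ℕ → ℕ)
    (hT : Sieve T) (E : ℕ → Set Ω) (hE : Model μ T E) :
    (∀ c : ℝ, 0 < c → ∀ᵐ ω ∂μ, CountLaw {n | ω ∈ E n} c) ↔
      ∀ θ : ℝ, 0 < θ → ∀ᶠ n : ℕ in atTop, (T n : ℝ) ≤ (Real.log n) ^ θ := by
  have h : Pool.Agent.U839.Sv.Sieved μ E T := ⟨hE.meas, hE.indep, hE.law⟩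
  constructor
  · intro hlaw θ hθ
    refine Pool.Agent.U839.Er.conv_cn T hT.1 hT.2 E h ?_ θ hθ
    intro c hc
    filter_upwards [hlaw c hc] with ω hω
    have h1 := hω.limits
    simp only [N_eq _ c hc] at h1
    exact h1
  · intro hTl c hc
    filter_upwards [Pool.Agent.U839.Er.many_all T hT.1 hTl h c hc, Pool.Agent.U839.Er.few_all T hT.1 hTl h c hc,
      Pool.Agent.U839.Er.none_all T hT.1 hTl h c hc, Pool.Agent.U839.Er.pt_bdd T hT.1 hTl h c hc]
      with ω h1 h2 h3 h4
    have h5 := Pool.Agent.U839.Er.limits_all _ c h1 h3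
    refine ⟨?_, ?_, ?_, ?_⟩
    · simp only [N_eq _ c hc]
      exact h5
    · simp only [N_eq _ c hc]
      exact h4
    · simp only [N_eq _ c hc]
      exact h1
    · simp only [N_eq _ c hc]
      exact h2

end Pool.Agent.Results.MP_b0c12c_nt.CountsInSievedModels
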