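import Pool.Agent.W142.TB.Fin
import Pool.Agent.W473.UBCB
import Pool.Agent.W25.UB.FinalT
import Pool.Agent.U455.DP

/-!
# Linear patterns of gaps between primes

`Gap J q a d`: the number `d` is a difference `p_(n+j) - p_n` with `1 ≤ j ≤ J` and `p_n ≡ a (mod q)`, for at
least `x ^ (1 - η)` primes `p_n ≤ x`, for every `η > 0` and arbitrarily large `x`.

There are absolute constants `δ > 0` and `J` such that for all squarefree `q` and all `a` coprime to `q` there
is an `M` such that the following holds for EVERY multiple `N` of `M`.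

* For all finite systems of linear forms `s (i + t)` and `s (w - i + t)` with `1 ≤ s ≤ C`, in every window
  of length `T ≥ L(q, a, N, C)` at least `δ T` of the integers `i` are such that more than one half of the values
  of the forms, multiplied by `N`, are such gaps (`L` does not depend on the system).
* The difference equation: for all `b, c ≥ 1` and all `h`, both `N b i` and `N c (i + h)` are gaps for at least
  `δ T` of the `i` in every window of length `T ≥ L(q, a, N, b, c)`; so every multiple `N b c h` of `N b c` is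
  `b y - c x` with gaps `x, y`, in particular every multiple of `N` is a difference of two gaps.
* The sum equation: for all `k ≥ L(q, a, N, b, c)` both `N b i` and `N c (k - i)` are gaps for at least `δ k` of
  the positive `i < k`; so every large multiple `N b c k` of `N b c` is `c x + b y` with gaps `x, y`,
  in particular every large multiple of `N` is a sum of two gaps.

Proof: in every long window more than one half of the multiples of `N s` are gaps (starting files,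
`MoreThanHalf`), for every `s`; average over the translates and reflections of the window.
-/

set_option autoImplicit false

namespace Pool.Agent.Results.MP_70e905_nt.LinearPatterns

open Finset Filter Pool.Agent.U455.DP

/-- `d` is a difference `p_(n+j) - p_n` with `1 ≤ j ≤ J` and `p_n ≡ a (mod q)`, for at least `x ^ (1 - η)`
primes `p_n ≤ x`, for every `η > 0` and arbitrarily large `x`. -/
def Gap (J q a d : ℕ) : Prop :=
  ∃ j : ℕ, 1 ≤ j ∧ j ≤ J ∧ ∀ η : ℝ, 0 < η → ∃ᶠ x : ℝ in atTop,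
    x ^ (1 - η) ≤ ({n : ℕ | (Nat.nth Nat.Prime n : ℝ) ≤ x ∧ Nat.nth Nat.Prime n ≡ a [MOD q] ∧
      Nat.nth Nat.Prime (n + j) = Nat.nth Nat.Prime n + d}.ncard : ℝ)

open Classical in
theorem result : ∃ δ : ℝ, 0 < δ ∧ ∃ J : ℕ, ∀ q a : ℕ, 0 < q → Squarefree q → Nat.Coprime a q →
    ∃ M : ℕ, 0 < M ∧ ∀ N : ℕ, 0 < N → M ∣ N →
    (∀ C : ℕ, ∃ L : ℕ, ∀ A B : Finset (ℕ × ℕ), 0 < A.card + B.card →
      (∀ p ∈ A, 1 ≤ p.1 ∧ p.1 ≤ C) → (∀ p ∈ B, 1 ≤ p.1 ∧ p.1 ≤ C) →
      ∀ T : ℕ, L ≤ T → ∀ u w : ℕ, u + T < w →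
      δ * (T : ℝ) ≤ (((Ioc u (u + T)).filter (fun i => (1 / 2 + δ) * ((A.card : ℝ) + B.card) ≤
        ((A.filter (fun p => Gap J q a (N * (p.1 * (i + p.2))))).card : ℝ) +
        ((B.filter (fun p => Gap J q a (N * (p.1 * (w - i + p.2))))).card : ℝ))).card : ℝ)) ∧
    (∀ b c : ℕ, 1 ≤ b → 1 ≤ c → ∃ L : ℕ, ∀ h : ℕ, ∀ T : ℕ, L ≤ T → ∀ u : ℕ,
      δ * (T : ℝ) ≤ (((Ioc u (u + T)).filter (fun i => Gap J q a (N * (b * i)) ∧
        Gap J q a (N * (c * (i + h))))).card : ℝ)) ∧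
    (∀ b c : ℕ, 1 ≤ b → 1 ≤ c → ∃ L : ℕ, ∀ k : ℕ, L ≤ k →
      δ * (k : ℝ) ≤ (((Ioo 0 k).filter (fun i => Gap J q a (N * (b * i)) ∧
        Gap J q a (N * (c * (k - i))))).card : ℝ)) := by
  obtain ⟨δ, hδ, J, H⟩ := Pool.Agent.W142.TB.hfB' (Pool.Agent.W473.UBCB.main Pool.Agent.W25.UB.thmVG)
  have hwin : ∀ q a : ℕ, 0 < q → Squarefree q → Nat.Coprime a q →
    ∃ M : ℕ, 0 < M ∧ ∀ N : ℕ, 0 < N → M ∣ N → ∃ L : ℕ, ∀ T : ℕ, L ≤ T → ∀ u : ℕ,
      (1 / 2 + 2 * (δ / 2)) * (T : ℝ) ≤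
        (((Ioc u (u + T)).filter (fun k => Gap J q a (N * k))).card : ℝ) := by
    intro q a hq hsq hco
    obtain ⟨M, hM, H1⟩ := H q a hq hsq hco
    refine ⟨M, hM, fun N hN hMN => ?_⟩
    obtain ⟨L, HL⟩ := H1 N hN hMN
    refine ⟨L, fun T hT u => ?_⟩
    have h := HL T hT u
    have e : {k : ℕ | u < k ∧ k ≤ u + T ∧ ∃ j : ℕ, 1 ≤ j ∧ j ≤ J ∧ ∀ η : ℝ, 0 < η → ∃ᶠ x : ℝ in atTop,
          x ^ (1 - η) ≤ ({n : ℕ | (Nat.nth Nat.Prime n : ℝ) ≤ x ∧
            Nat.nth Nat.Prime n ≡ a [MOD q] ∧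
            Nat.nth Nat.Prime (n + j) = Nat.nth Nat.Prime n + N * k}.ncard : ℝ)} =
        (((Ioc u (u + T)).filter (fun k => Gap J q a (N * k)) : Finset ℕ) : Set ℕ) := by
      ext k
      rw [Finset.mem_coe, mem_filter, mem_Ioc, and_assoc]
      exact Iff.rfl
    rw [e, Set.ncard_coe_finset] at h
    rwa [show (1 / 2 + 2 * (δ / 2) : ℝ) = 1 / 2 + δ by ring]
  refine ⟨δ / 4, by positivity, J, fun q a hq hsq hco => ?_⟩
  obtain ⟨M, hM, H1⟩ := hwin q a hq hsq hco
  refine ⟨M, hM, fun N hN hMN => ?_⟩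
  -- uniform `L` for the multipliers up to `C`
  have hC : ∀ C : ℕ, ∃ L : ℕ, ∀ s : ℕ, 1 ≤ s ∧ s ≤ C → ∀ T : ℕ, L ≤ T → ∀ u : ℕ,
      (1 / 2 + 2 * (δ / 2)) * (T : ℝ) ≤
        (((Ioc u (u + T)).filter (fun k => Gap J q a (N * (s * k)))).card : ℝ) := by
    intro C
    have h0 : ∀ s : ℕ, ∃ L : ℕ, 1 ≤ s → ∀ T : ℕ, L ≤ T → ∀ u : ℕ,
      (1 / 2 + 2 * (δ / 2)) * (T : ℝ) ≤
        (((Ioc u (u + T)).filter (fun k => Gap J q a (N * (s * k)))).card : ℝ) := by
      intro s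
      by_cases hs : 1 ≤ s
      · obtain ⟨L, HL⟩ := H1 (N * s) (Nat.mul_pos hN hs) (hMN.mul_right s)
        refine ⟨L, fun _ T hT u => ?_⟩
        have := HL T hT u
        simpa only [Nat.mul_assoc] using this
      · exact ⟨0, fun h => absurd h hs⟩
    choose Lf hLf using h0
    refine ⟨(Finset.range (C + 1)).sup Lf, fun s hs T hT u => hLf s hs.1 T ?_ u⟩
    exact le_trans (Finset.le_sup (Finset.mem_range.2 (Nat.lt_succ_of_le hs.2))) hT
  have hpart1 : ∀ C : ℕ, ∃ L : ℕ, ∀ A B : Finset (ℕ × ℕ), 0 < A.card + B.card →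
      (∀ p ∈ A, 1 ≤ p.1 ∧ p.1 ≤ C) → (∀ p ∈ B, 1 ≤ p.1 ∧ p.1 ≤ C) →
      ∀ T : ℕ, L ≤ T → ∀ u w : ℕ, u + T < w →
      δ / 2 * (T : ℝ) ≤ (((Ioc u (u + T)).filter (fun i => (1 / 2 + δ / 2) * ((A.card : ℝ) + B.card) ≤
        ((A.filter (fun p => Gap J q a (N * (p.1 * (i + p.2))))).card : ℝ) +
        ((B.filter (fun p => Gap J q a (N * (p.1 * (w - i + p.2))))).card : ℝ))).card : ℝ) := by
    intro C
    obtain ⟨L, hL⟩ := hC C
    refine ⟨L, fun A B hAB hA hB T hT u w hw => ?_⟩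
    exact pattern (fun s k => Gap J q a (N * (s * k))) (δ / 2) (by positivity) L
      {s | 1 ≤ s ∧ s ≤ C} hL A B hA hB hAB T hT u w hw
  refine ⟨?_, ?_, ?_⟩
  · intro C
    obtain ⟨L, hL⟩ := hpart1 C
    refine ⟨L, fun A B hAB hA hB T hT u w hw => ?_⟩
    have h := hL A B hAB hA hB T hT u w hw
    have h0 : (0 : ℝ) ≤ T := Nat.cast_nonneg _
    refine le_trans (by nlinarith) (h.trans ?_)
    have h1 : (0 : ℝ) ≤ (A.card : ℝ) + B.card := by positivity
    refine Nat.cast_le.2 (Finset.card_le_card ?_)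
    intro i hi
    rw [mem_filter] at hi ⊢
    refine ⟨hi.1, le_trans ?_ hi.2⟩
    nlinarith
  · intro b c hb hc
    obtain ⟨L, hL⟩ := hC (max b c)
    refine ⟨L, fun h T hT u => ?_⟩
    have h1 := hL b ⟨hb, le_max_left _ _⟩ T hT u
    have h2 := hL c ⟨hc, le_max_right _ _⟩ T hT (u + h)
    rw [← shift_count (fun k => Gap J q a (N * (c * k))) T u h] at h2
    have h3 := both (Ioc u (u + T)) (fun k => Gap J q a (N * (b * k)))
      (fun i => Gap J q a (N * (c * (i + h))))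
    rw [Nat.card_Ioc, Nat.add_sub_cancel_left] at h3
    have h4 : (((Ioc u (u + T)).filter (fun k => Gap J q a (N * (b * k)))).card : ℝ) +
        (((Ioc u (u + T)).filter (fun i => Gap J q a (N * (c * (i + h))))).card : ℝ) ≤ (T : ℝ) +
        (((Ioc u (u + T)).filter (fun i => Gap J q a (N * (b * i)) ∧
        Gap J q a (N * (c * (i + h))))).card : ℝ) := by exact_mod_cast h3
    have h5 : 0 ≤ δ * (T : ℝ) := by positivity
    linarith
  · intro b c hb hc
    obtain ⟨L, hL⟩ := hC (max b c)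
    refine ⟨L + 2, fun k hk => ?_⟩
    have h1 := hL b ⟨hb, le_max_left _ _⟩ (k - 1) (by omega) 0
    have h2 := hL c ⟨hc, le_max_right _ _⟩ (k - 1) (by omega) (k - 0 - (k - 1) - 1 + 0)
    have h2' := refl_count (fun k => Gap J q a (N * (c * k))) (k - 1) 0 k 0 (by omega)
    have h3 := both (Ioc 0 (0 + (k - 1))) (fun k => Gap J q a (N * (b * k)))
      (fun i => Gap J q a (N * (c * (k - i))))
    rw [Nat.card_Ioc, Nat.add_sub_cancel_left] at h3
    simp only [add_zero] at h2'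
    have e : Ioc 0 (0 + (k - 1)) = Ioo 0 k := by
      ext i
      simp only [mem_Ioc, mem_Ioo]
      omega
    rw [e] at h1 h2' h3
    have h2'' : (1 / 2 + 2 * (δ / 2)) * ((k - 1 : ℕ) : ℝ) ≤
        (((Ioo 0 k).filter (fun i => Gap J q a (N * (c * (k - i))))).card : ℝ) :=
      le_trans h2 (by exact_mod_cast h2')
    have h4 : (((Ioo 0 k).filter (fun k => Gap J q a (N * (b * k)))).card : ℝ) +
        (((Ioo 0 k).filter (fun i => Gap J q a (N * (c * (k - i))))).card : ℝ) ≤ ((k - 1 : ℕ) : ℝ) +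
        (((Ioo 0 k).filter (fun i => Gap J q a (N * (b * i)) ∧
        Gap J q a (N * (c * (k - i))))).card : ℝ) := by exact_mod_cast h3
    have h6 : ((k - 1 : ℕ) : ℝ) = (k : ℝ) - 1 := by
      rw [Nat.cast_sub (by omega)]; simp
    rw [h6] at h1 h2'' h4
    have h7 : (2 : ℝ) ≤ k := by exact_mod_cast (by omega : 2 ≤ k)
    nlinarith

end Pool.Agent.Results.MP_70e905_nt.LinearPatterns
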