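import Mathlib
import Pool.Agent.U839.Thin.Mix

set_option autoImplicit false

/-!
# Between Cramér's random model and the primes

For `0 ≤ α ≤ 1` let `Q` be a random set that contains `n` with probability
`α 1_prime(n) + (1 - α) / log n`, independently for all `n ≥ 3`. For `α = 0` this is Cramér's model, for
`α = 1` it is the set of the primes, and for every `α` the expected number of elements up to `x` is
asymptotic to `x / log x`. Cramér's theorem is `L(Q) = 1` almost surely for `α = 0`, his conjecture is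
`L = 1` for `α = 1`. We show, without any hypothesis:

* for every `α < 1`, almost surely
  `1 / (1 - α + (e^γ / 2) log (1 / (1 - α))) ≤ L(Q) ≤ 1 / (1 - α)`; in particular `0 < L(Q) < ∞`;
* if `0 < α ≤ 1 / 5`, then `L(Q) > 1` almost surely: Cramér's value `1` is correct for his model, but it is
  wrong as soon as the primes have any share `α ≤ 1 / 5` in the random set.

Proof of the lower bound: Maier's matrix method gives `x^(1 - η)` integers `n ≤ x` with at most `κ log n`
primes in `(n, n + c (log n)²]`, `c < 2 e^(-γ) κ` (`H510R2.Maier.G.few_freq`, helper510's team), and disjoint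
windows of this kind are empty independently, with probability `n^(- (1 - α) c - κ log (1 / (1 - α)) + o(1))`.
-/

open MeasureTheory ProbabilityTheory Filter Topology

namespace Pool.Agent.Results.MP_b0c12c_nt.MixturesWithCramerModel

/-- `L(Q) = limsup (q_(k+1) - q_k) / (log q_k)²`, where `q_0 < q_1 < ...` are the elements of `Q`. -/
noncomputable def L (Q : Set ℕ) : ENNReal :=
  limsup (fun k : ℕ => ENNReal.ofReal (((Nat.nth (· ∈ Q) (k + 1) : ℝ) - Nat.nth (· ∈ Q) k) /
    (Real.log (Nat.nth (· ∈ Q) k)) ^ 2)) atTop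

/-- `E n` is the event that `n` belongs to the random set; these events are independent. -/
theorem result {Ω : Type*} [MeasurableSpace Ω] (μ : Measure Ω) [IsProbabilityMeasure μ]
    (E : ℕ → Set Ω) (hm : ∀ n, MeasurableSet (E n)) (hE : iIndepSet E μ)
    (α : ℝ) (h0 : 0 ≤ α) (h1 : α < 1)
    (hP : ∀ᶠ n : ℕ in atTop, μ.real (E n) = (if n.Prime then α else 0) + (1 - α) / Real.log n) :
    ∀ᵐ ω ∂μ, {n : ℕ | ω ∈ E n}.Infinite ∧
      ENNReal.ofReal (1 / ((1 - α) +
        Real.exp Real.eulerMascheroniConstant / 2 * Real.log (1 / (1 - α)))) ≤ L {n : ℕ | ω ∈ E n} ∧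
      L {n : ℕ | ω ∈ E n} ≤ ENNReal.ofReal (1 / (1 - α)) ∧
      (α = 0 → L {n : ℕ | ω ∈ E n} = 1) ∧
      (0 < α → α ≤ 1 / 5 → 1 < L {n : ℕ | ω ∈ E n}) := by
  have e : (1 - α) + Real.exp Real.eulerMascheroniConstant / 2 * Real.log (1 / (1 - α)) =
      (1 - α) + -Real.log (1 - α) / Pool.Agent.U839.Thin.GG := by
    rw [one_div, Real.log_inv, Pool.Agent.U839.Thin.GG, Real.exp_neg]
    have := Real.exp_pos Real.eulerMascheroniConstant
    field_simp
  rw [e]
  filter_upwards [Pool.Agent.U839.Thin.mix α h0 h1 hm hE hP] with ω hω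
  obtain ⟨g1, g2, g3⟩ := hω
  refine ⟨g1, g2, g3, ?_, ?_⟩
  · rintro rfl
    apply le_antisymm
    · refine g3.trans (le_of_eq ?_)
      simp
    · refine le_trans (le_of_eq ?_) g2
      simp
  · intro h2 h3
    refine lt_of_lt_of_le ?_ g2
    rw [← ENNReal.ofReal_one]
    have h4 := Pool.Agent.U839.Thin.mix_gt α h2 h3
    exact (ENNReal.ofReal_lt_ofReal_iff (by linarith)).2 h4

end Pool.Agent.Results.MP_b0c12c_nt.MixturesWithCramerModel
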