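import Mathlib
import Pool.Agent.U839.Thin.Fin

set_option autoImplicit false

/-!
# Cramér's question for random subsets of the primes

Delete the primes at random, independently of each other. For the set of the remaining primes the gaps
have the order `(log p)²` predicted by Cramér, without any hypothesis, however rare the deletions
are, and the constant `2 e^(-γ) = 1.1229...` of the refined random model (Granville) appears.

* If a proportion `ρ < 1` of the primes remains, then almost surely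
  `L(Q) = limsup (q_(k+1) - q_k) / (log q_k)²` is at least `2 e^(-γ) / log (1 / (1 - ρ))` for the set
  `Q` of the remaining primes. For the integers themselves kept with probability `ρ / log n` (Cramér's
  model for `Q`) the value is `1 / ρ` almost surely; for `0 < ρ ≤ 1 / 5` the random subset of the primes
  has `L(Q) > 1 / ρ`, so Cramér's model gives a wrong answer for `Q`.
* If `p` is deleted with probability at least `e^(- D(p))`, `D` slowly varying, bounded from below by a
  positive constant, `D(p) = o(log p)`, then almost surely, for every `ε > 0`, there are infinitely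
  many `n` for which all primes in `(n, n + (2 e^(-γ) - ε) (log n)² / D(n)]` are deleted; for instance
  gaps of length `c (log p)² / log log p` if `p` is deleted with probability `(log p)^(- B)`.

Proof: Maier's matrix method gives `x^(1 - η)` integers `n ≤ x` with at most `κ log n` primes in
`(n, n + c (log n)²]`, `c < 2 e^(-γ) κ` (`H510R2.Maier.G.few_freq`, helper510's team); pigeonhole for
subwindows; independence and the lemma of Borel and Cantelli.
-/

open MeasureTheory ProbabilityTheory Filter Topology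

namespace Pool.Agent.Results.MP_ff81b6_nt.RandomSubsets

/-- `L(Q) = limsup (q_(k+1) - q_k) / (log q_k)²`, where `q_0 < q_1 < ...` are the elements of `Q`. -/
noncomputable def L (Q : Set ℕ) : ENNReal :=
  limsup (fun k : ℕ => ENNReal.ofReal (((Nat.nth (· ∈ Q) (k + 1) : ℝ) - Nat.nth (· ∈ Q) k) /
    (Real.log (Nat.nth (· ∈ Q) k)) ^ 2)) atTop

/-- `A p` is the event that the prime `p` is deleted; these events are independent. -/
theorem result {Ω : Type*} [MeasurableSpace Ω] (μ : Measure Ω) [IsProbabilityMeasure μ]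
    (A : ℕ → Set Ω) (hm : ∀ p, MeasurableSet (A p)) (hA : iIndepSet A μ) :
    (∀ ρ : ℝ, 0 < ρ → ρ < 1 → (∀ p : ℕ, p.Prime → μ.real (A p) = 1 - ρ) →
      ∀ᵐ ω ∂μ, {p : ℕ | p.Prime ∧ ω ∉ A p}.Infinite ∧
        ENNReal.ofReal (2 * Real.exp (-Real.eulerMascheroniConstant) / Real.log (1 / (1 - ρ))) ≤
          L {p : ℕ | p.Prime ∧ ω ∉ A p} ∧
        (ρ ≤ 1 / 5 → ENNReal.ofReal (1 / ρ) < L {p : ℕ | p.Prime ∧ ω ∉ A p})) ∧
    (∀ D : ℕ → ℝ, (∃ D₀ : ℝ, 0 < D₀ ∧ ∀ᶠ n in atTop, D₀ ≤ D n) →
      Tendsto (fun n : ℕ => D n / Real.log n) atTop (𝓝 0) →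
      (∀ ε : ℝ, 0 < ε → ∀ᶠ n : ℕ in atTop, ∀ m : ℕ, n ≤ m → m ≤ 2 * n → |D m - D n| ≤ ε * D n) →
      (∀ᶠ p : ℕ in atTop, p.Prime → Real.exp (-D p) ≤ μ.real (A p)) →
      ∀ᵐ ω ∂μ, ∀ ε : ℝ, 0 < ε → ∃ᶠ n : ℕ in atTop, ∀ p : ℕ, p.Prime → n < p →
        (p : ℝ) ≤ n + (2 * Real.exp (-Real.eulerMascheroniConstant) - ε) * (Real.log n) ^ 2 / D n →
        ω ∈ A p) := by
  refine ⟨fun ρ h0 h1 hδ => ?_, fun D h1 h2 h3 hδ => ?_⟩
  · filter_upwards [Pool.Agent.U839.Thin.thin ρ h0 h1 hm hA hδ] with ω hω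
    have e : Real.log (1 / (1 - ρ)) = -Real.log (1 - ρ) := by rw [one_div, Real.log_inv]
    rw [e]
    refine ⟨hω.1, hω.2, fun h5 => lt_of_lt_of_le ?_ hω.2⟩
    have h6 := Pool.Agent.U839.Thin.beats ρ h0 h5
    refine (ENNReal.ofReal_lt_ofReal_iff (lt_trans ?_ h6)).2 h6
    positivity
  · exact Pool.Agent.U839.Thin.windows_all D ⟨h1, h2, h3⟩ hm hA hδ

/-- The example `D n = B log log n`: `p` is deleted with probability at least `(log p)^(- B)`. -/
theorem rare {Ω : Type*} [MeasurableSpace Ω] (μ : Measure Ω) [IsProbabilityMeasure μ]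
    (A : ℕ → Set Ω) (hm : ∀ p, MeasurableSet (A p)) (hA : iIndepSet A μ) (B : ℝ) (hB : 0 < B)
    (hδ : ∀ᶠ p : ℕ in atTop, p.Prime → (Real.log p) ^ (-B) ≤ μ.real (A p)) :
    ∀ᵐ ω ∂μ, ∀ ε : ℝ, 0 < ε → ∃ᶠ n : ℕ in atTop, ∀ p : ℕ, p.Prime → n < p →
      (p : ℝ) ≤ n + (2 * Real.exp (-Real.eulerMascheroniConstant) - ε) * (Real.log n) ^ 2 /
        (B * Real.log (Real.log n)) → ω ∈ A p := by
  apply Pool.Agent.U839.Thin.windows_all _ (Pool.Agent.U839.Thin.slow_loglog B hB) hm hA
  filter_upwards [hδ, Pool.Agent.U839.Thin.tlog.eventually_ge_atTop 1] with p h1 h2 hp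
  refine le_trans (le_of_eq ?_) (h1 hp)
  rw [Real.rpow_def_of_pos (by linarith)]
  congr 1
  ring

end Pool.Agent.Results.MP_ff81b6_nt.RandomSubsets
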