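import Pool.Agent.U837.RP.Sml

/-!
# The lower bound for the number of Goldbach representations, in all long windows, for ALL the even integers all of
whose digits in base `n` are small, for almost all bases `n`

Definitions used (starting file `Pool.Agent.H560R3.GB.Defs`): `C₂`: the twin prime constant
`∏_{p > 2} (1 - 1 / (p - 1) ^ 2)`; `sing m`: the singular series `2 C₂ ∏_{p ∣ m, p > 2} (p - 1) / (p - 2)`; `g m`: the
number of the ordered pairs of primes with the sum `m`.

Method: the inverse theorem for Weyl sums (starting file `H373R2/NB/Weyl`), which loses only powers of the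
logarithm, gives for every real polynomial `f` of degree `d` with leading coefficient `α` the bound
`C (1 + |α|) x ^ (2 h) / (|α| x ^ d)` for the additive energy of a large order `h` of the integer parts of its values
at `x` consecutive integers (`Pool.Agent.U837.RP.energy_poly`; there is no loss at all, and `C`, `h` depend on `d`
alone). So they are a thin family of integers of nearly minimal additive energy, uniformly in the polynomial, and the
theorem of the starting files on such families (`Pool.Agent.R459.near_even`) applies with exceptional sets which are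
smaller than any power of the logarithm, so that all polynomials with small coefficients can be treated at once.
-/

set_option autoImplicit false

namespace Pool.Agent.Results.MP_dd84fd_nt.SmallDigits

open Finset Polynomial
open Pool.Agent.H560R3.GB (g sing C₂)

/-- The number of primes `p` with `y₁ < p ≤ y₂` such that `m - p` is a prime. -/
def R (m y₁ y₂ : ℕ) : ℕ := ((Ioc y₁ y₂).filter (fun p => p.Prime ∧ (m - p).Prime)).card

/-- (1) the number `g m` of representations of `m` as a sum of two primes is at least `(1 - ε) 2 C₂ m / log ^ 2 m` and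
agrees with `sing m * m / log ^ 2 m` up to a relative error of at most `ε`; (2) in every window `(y₁, y₂]` of a length of
at least `m / log ^ A m` with `0 ≤ y₁ < y₂ ≤ m` the number of primes `p` such that `m - p` is a prime agrees with
`sing m * (y₂ - y₁) / log ^ 2 m` up to a relative error of at most `ε`. -/
def Holds (ε : ℝ) (A m : ℕ) : Prop :=
  ((1 - ε) * (2 * C₂) * m / Real.log m ^ 2 ≤ g m ∧
    |(g m : ℝ) - sing m * m / Real.log m ^ 2| ≤ ε * (sing m * m / Real.log m ^ 2)) ∧
  ∀ y₁ y₂ : ℕ, y₁ < y₂ → y₂ ≤ m → (m : ℝ) / Real.log m ^ A ≤ (y₂ : ℝ) - y₁ →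
    |(R m y₁ y₂ : ℝ) - sing m * ((y₂ : ℝ) - y₁) / Real.log m ^ 2| ≤ ε * (sing m * ((y₂ : ℝ) - y₁) / Real.log m ^ 2)

lemma g_eq (m : ℕ) : g m = R m 0 m := by
  unfold Pool.Agent.H560R3.GB.g R
  symm
  apply card_bij (fun p _ => (p, m - p))
  · intro p hp
    rw [mem_filter, mem_Ioc] at hp
    rw [mem_filter, HasAntidiagonal.mem_antidiagonal]
    exact ⟨by omega, hp.2⟩
  · intro p _ q _ h
    exact (Prod.ext_iff.1 h).1
  · rintro ⟨a, b⟩ h
    rw [mem_filter, HasAntidiagonal.mem_antidiagonal] at h
    simp only at h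
    refine ⟨a, ?_, ?_⟩
    · rw [mem_filter, mem_Ioc]
      refine ⟨⟨h.2.1.pos, by omega⟩, h.2.1, ?_⟩
      rw [← h.1, Nat.add_sub_cancel_left]
      exact h.2.2
    · rw [← h.1, Nat.add_sub_cancel_left]

lemma C2_nonneg : 0 ≤ C₂ := by
  have h := Pool.Agent.W93.GB.one_le_sing 1
  unfold sing at h
  simp only [Nat.primeFactors_one, filter_empty, prod_empty, mul_one] at h
  linarith

lemma le_sing (m : ℕ) : 2 * C₂ ≤ sing m := by
  unfold sing
  have h0 := C2_nonneg
  have h1 : (1 : ℝ) ≤ ∏ p ∈ m.primeFactors.filter (fun p => 2 < p), ((p : ℝ) - 1) / ((p : ℝ) - 2) := by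
    apply prod_induction _ (fun y : ℝ => 1 ≤ y) (fun a b ha hb => one_le_mul_of_one_le_of_one_le ha hb) le_rfl
    intro p hp
    rw [mem_filter] at hp
    have h2 : (3 : ℝ) ≤ p := by exact_mod_cast hp.2
    rw [one_le_div (by linarith)]
    linarith
  nlinarith

lemma holds_of (ε : ℝ) (hε1 : ε ≤ 1) (A : ℕ) (m : ℕ) (hm : 3 ≤ m) (_ : 2 ∣ m)
    (hwin : Pool.Agent.W93.PG.WinP ε A m) : Holds ε A m := by
  unfold Pool.Agent.W93.PG.WinP at hwin
  have hR : ∀ y₁ y₂, Pool.Agent.W93.PG.cnt m y₁ y₂ = R m y₁ y₂ := fun _ _ => rfl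
  simp only [hR] at hwin
  have hm0 : (0 : ℝ) < m := by exact_mod_cast (by omega : 0 < m)
  have hl : 1 ≤ Real.log m := by
    rw [Real.le_log_iff_exp_le hm0]
    have : (3 : ℝ) ≤ m := by exact_mod_cast hm
    linarith [Real.exp_one_lt_d9]
  have h1 := hwin 0 m (by omega) le_rfl (by
    push_cast
    rw [sub_zero]
    exact div_le_self hm0.le (one_le_pow₀ hl))
  rw [← g_eq] at h1
  push_cast at h1
  rw [sub_zero] at h1
  have h2 := le_sing m
  refine ⟨⟨?_, h1⟩, hwin⟩
  have h3 := (abs_le.1 h1).1
  have h4 : (2 * C₂) * m / Real.log m ^ 2 ≤ sing m * m / Real.log m ^ 2 := by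
    apply div_le_div_of_nonneg_right _ (by positivity)
    exact mul_le_mul_of_nonneg_right h2 hm0.le
  have h5 : (1 - ε) * (2 * C₂) * m / Real.log m ^ 2 = (1 - ε) * ((2 * C₂) * m / Real.log m ^ 2) := by ring
  rw [h5]
  have h6 := mul_le_mul_of_nonneg_left h4 (by linarith : 0 ≤ 1 - ε)
  linarith

open Classical in
/-- The number of the integers `1 ≤ n ≤ x` for which `Holds ε A m` is false for some positive even integer
`m = a 0 + a 1 * n + ... + a d * n ^ d` with integers `a i`, `|a i| ≤ log ^ W x`, such that `a 1, ..., a d` are not all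
zero. -/
noncomputable def exceptions (ε : ℝ) (d A W x : ℕ) : ℕ :=
  ((Icc 1 x).filter (fun n : ℕ => ∃ (m : ℕ) (a : ℕ → ℤ), 0 < m ∧ Even m ∧
    (∀ i ≤ d, |(a i : ℝ)| ≤ Real.log x ^ W) ∧ (∃ i, 1 ≤ i ∧ i ≤ d ∧ a i ≠ 0) ∧
    (m : ℤ) = ∑ i ∈ range (d + 1), a i * (n : ℤ) ^ i ∧ ¬ Holds ε A m)).card

/-- Let `d`, `A`, `W`, `U` and `0 < ε ≤ 1` be fixed, and let `x` be large. Then all the integers `1 ≤ n ≤ x`, with at most
`x / log ^ U x` exceptions, have the following property: for ALL the positive even integers `m = a 0 + a 1 n + ... + a d n ^ d`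
with integers `a i` (of either sign) of absolute value at most `log ^ W x`, where `a 1, ..., a d` are not all zero,
the number of representations of `m` as a sum of two primes is at least `(1 - ε) 2 C₂ m / log ^ 2 m`, and it is
`sing m * m / log ^ 2 m` up to a relative error of at most `ε`, and the same is true of the number of the
representations with the first prime in a given window, for all the windows of a length of at least `m / log ^ A m`.
(For `d = 2`, for example, these are all the positive even integers `c + b n + a n ^ 2` with small integers `a`, `b`,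
`c`; they form a set of at most `x ^ (1 + o(1))` integers up to `x ^ (2 + o(1))`.) -/
theorem result (d A W U : ℕ) (ε : ℝ) (hε : 0 < ε) (hε1 : ε ≤ 1) :
    ∃ x₀ : ℕ, ∀ x : ℕ, x₀ ≤ x → (exceptions ε d A W x : ℝ) ≤ x / Real.log x ^ U := by
  classical
  obtain ⟨x₀, h0⟩ := Pool.Agent.U837.RP.small_polys d A W U 3 ε hε (Holds ε A)
    (fun m hm h2 hw => holds_of ε hε1 A m hm h2 hw)
  refine ⟨x₀ + 3, fun x hx => ?_⟩
  have hlog : 0 < Real.log x := Real.log_pos (by exact_mod_cast (by omega : 1 < x))
  unfold exceptions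
  refine h0 x (by omega) _ ?_
  intro n hn
  rw [mem_filter] at hn
  obtain ⟨h1, m, a, m1, m2, ha, ⟨i, hi1, hi2, hi3⟩, hm, m4⟩ := hn
  obtain ⟨f, hf⟩ : ∃ f : ℤ[X], f = ∑ i ∈ range (d + 1), monomial i (a i) := ⟨_, rfl⟩
  have hcoef : ∀ j, f.coeff j = if j ≤ d then a j else 0 := by
    intro j
    rw [hf, finsetSum_coeff]
    simp only [coeff_monomial]
    rw [sum_ite_eq' (range (d + 1)) j a]
    simp only [mem_range, Nat.lt_succ_iff]
  have hev : f.eval (n : ℤ) = m := by
    rw [hf, eval_finsetSum, hm]
    simp only [eval_monomial]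
  refine ⟨h1, f, ?_, ?_, ?_, m, m1, m2, ?_, m4⟩
  · refine hi1.trans (le_natDegree_of_ne_zero ?_)
    rw [hcoef, if_pos hi2]
    exact hi3
  · rw [natDegree_le_iff_coeff_eq_zero]
    intro j hj
    rw [hcoef, if_neg (by omega)]
  · intro j
    rw [hcoef]
    split_ifs with hj
    · have := ha j hj
      push_cast
      exact this
    · simp only [abs_zero, Int.cast_zero]
      positivity
  · rw [hev, sub_self, abs_zero, Int.cast_zero]
    positivity

end Pool.Agent.Results.MP_dd84fd_nt.SmallDigits
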